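import Pool.Agent.Q67.AXI.Defs
import Pool.Agent.W585.Param

/-!
Project AXI (helper67), job AXI-1: the averages `AA g`.
-/

set_option autoImplicit false

open MeasureTheory Set Metric Filter Topology
open scoped ContDiff
open H459R3.NS

namespace Pool.Agent.Q182.AXI

open Pool.Agent.Q67.AXI Pool.Agent.TH305.AX

/-- the point of the segment between `x` and the axis -/
def PL (l : ℝ) (x : V) : V := ![l * x 0, l * x 1, x 2]

theorem AA_eq (g : V → ℝ) (x : V) : AA g x = ∫ l in (0 : ℝ)..1, l * g (PL l x) := rfl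

theorem cd_PL : ContDiff ℝ ∞ (fun p : V × ℝ => PL p.2 p.1) := by
  rw [contDiff_pi]
  intro i
  fin_cases i
  · show ContDiff ℝ ∞ (fun p : V × ℝ => p.2 * p.1 0)
    exact contDiff_snd.mul ((sm_crd 0).comp contDiff_fst)
  · show ContDiff ℝ ∞ (fun p : V × ℝ => p.2 * p.1 1)
    exact contDiff_snd.mul ((sm_crd 1).comp contDiff_fst)
  · show ContDiff ℝ ∞ (fun p : V × ℝ => p.1 2)
    exact (sm_crd 2).comp contDiff_fst

/-- the factors -/
noncomputable def cc (j : Fin 3) (l : ℝ) : ℝ := if j = 2 then 1 else l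

/-- the linear map `x ↦ PL l x` -/
noncomputable def PM (l : ℝ) : V →L[ℝ] V :=
  ContinuousLinearMap.pi (fun i => cc i l • ContinuousLinearMap.proj (R := ℝ) (φ := fun _ : Fin 3 => ℝ) i)

theorem PM_apply (l : ℝ) (x : V) : PM l x = PL l x := by
  funext i
  fin_cases i <;> simp [PM, PL, cc]

theorem PM_single (l : ℝ) (j : Fin 3) : PM l (Pi.single j 1) = cc j l • (Pi.single j 1 : V) := by
  funext i
  simp only [PM, ContinuousLinearMap.coe_pi', smul_apply, ContinuousLinearMap.proj_apply,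
    Pi.smul_apply, smul_eq_mul]
  by_cases h : i = j
  · subst h; rfl
  · rw [Pi.single_eq_of_ne h, mul_zero, mul_zero]

theorem hF {g : V → ℝ} (hg : ContDiff ℝ ∞ g) : ContDiff ℝ ∞ (fun p : V × ℝ => p.2 * g (PL p.2 p.1)) :=
  contDiff_snd.mul (hg.comp cd_PL)

theorem sm_AA {g : V → ℝ} (hg : ContDiff ℝ ∞ g) : ContDiff ℝ ∞ (AA g) :=
  Pool.Agent.W585.contDiff_param (F := fun (x : V) (l : ℝ) => l * g (PL l x)) (hF hg) 0 1

theorem fd {g : V → ℝ} (hg : ContDiff ℝ ∞ g) (l : ℝ) (x : V) :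
    HasFDerivAt (fun y : V => l * g (PL l y)) (l • ((fderiv ℝ g (PL l x)).comp (PM l))) x := by
  have h1 : HasFDerivAt g (fderiv ℝ g (PL l x)) (PL l x) := (hg.differentiable (by simp) _).hasFDerivAt
  have h2 : HasFDerivAt (fun y => PL l y) (PM l) x := by
    have : (fun y => PL l y) = fun y => PM l y := by
      funext y
      exact (PM_apply l y).symm
    rw [this]
    exact (PM l).hasFDerivAt
  exact (h1.comp x h2).const_mul l

theorem pd_AA {g : V → ℝ} (hg : ContDiff ℝ ∞ g) (j : Fin 3) (x : V) :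
    pd j (AA g) x = ∫ l in (0 : ℝ)..1, l * (cc j l * pd j g (PL l x)) := by
  have h := Pool.Agent.W585.hasFDerivAt_param (F := fun (y : V) (l : ℝ) => l * g (PL l y))
    ((hF hg).of_le (by norm_cast)) 0 1 x
  have hc : Continuous (fun l : ℝ => fderiv ℝ (fun y : V => l * g (PL l y)) x) := by
    have h1 : ContDiff ℝ 1 (Function.uncurry (fun (l : ℝ) (y : V) => l * g (PL l y))) := by
      have h2 : ContDiff ℝ 1 (fun p : V × ℝ => p.2 * g (PL p.2 p.1)) := (hF hg).of_le (by norm_cast)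
      exact h2.comp (contDiff_snd.prodMk contDiff_fst)
    exact (ContDiff.fderiv (n := 0) h1 contDiff_const (by norm_num)).continuous
  show fderiv ℝ (AA g) x (Pi.single j 1) = _
  have e : AA g = fun y => ∫ l in (0 : ℝ)..1, l * g (PL l y) := rfl
  rw [e, h.fderiv, ContinuousLinearMap.intervalIntegral_apply (hc.intervalIntegrable _ _)]
  apply intervalIntegral.integral_congr
  intro l _
  show fderiv ℝ (fun y : V => l * g (PL l y)) x (Pi.single j 1) = l * (cc j l * pd j g (PL l x))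
  rw [(fd hg l x).fderiv, smul_apply, ContinuousLinearMap.comp_apply, PM_single, map_smul,
    smul_eq_mul, smul_eq_mul]
  rfl

theorem sm_pd {g : V → ℝ} (hg : ContDiff ℝ ∞ g) (j : Fin 3) : ContDiff ℝ ∞ (pd j g) := by
  have h1 : ContDiff ℝ ∞ (fderiv ℝ g) := hg.fderiv_right (by simp)
  exact h1.clm_apply contDiff_const

theorem cont_l {g : V → ℝ} (hg : ContDiff ℝ ∞ g) (x : V) : Continuous (fun l : ℝ => g (PL l x)) := by
  have h1 := hg.continuous.comp (cd_PL.continuous.comp (continuous_const.prodMk continuous_id : Continuous fun l : ℝ => (x, l)))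
  exact h1

theorem der_l {g : V → ℝ} (hg : ContDiff ℝ ∞ g) (x : V) (l : ℝ) :
    HasDerivAt (fun l : ℝ => g (PL l x)) (x 0 * pd 0 g (PL l x) + x 1 * pd 1 g (PL l x)) l := by
  have h1 : HasDerivAt (fun l : ℝ => PL l x) (x 0 • (Pi.single 0 1 : V) + x 1 • (Pi.single 1 1 : V)) l := by
    rw [hasDerivAt_pi]
    intro i
    fin_cases i
    · show HasDerivAt (fun l : ℝ => l * x 0) _ l
      simpa using (hasDerivAt_id l).mul_const (x 0)
    · show HasDerivAt (fun l : ℝ => l * x 1) _ l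
      simpa using (hasDerivAt_id l).mul_const (x 1)
    · show HasDerivAt (fun _ : ℝ => x 2) _ l
      simpa using hasDerivAt_const l (x 2)
  have h2 : HasFDerivAt g (fderiv ℝ g (PL l x)) (PL l x) := (hg.differentiable (by simp) _).hasFDerivAt
  have h3 := h2.comp_hasDerivAt l h1
  rw [map_add, map_smul, map_smul, smul_eq_mul, smul_eq_mul] at h3
  exact h3

theorem two_AA {g : V → ℝ} (hg : ContDiff ℝ ∞ g) (x : V) : 2 * AA g x + RR (AA g) x = g x := by
  have hd : ∀ l ∈ uIcc (0 : ℝ) 1, HasDerivAt (fun l : ℝ => l ^ 2 * g (PL l x))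
      (2 * (l * g (PL l x)) + (x 0 * (l * (l * pd 0 g (PL l x))) + x 1 * (l * (l * pd 1 g (PL l x))))) l := by
    intro l _
    have h1 := (hasDerivAt_pow 2 l).mul (der_l hg x l)
    refine h1.congr_deriv ?_
    simp
    ring
  have c0 : Continuous (fun l : ℝ => l * g (PL l x)) := continuous_id.mul (cont_l hg x)
  have c1 : ∀ j, Continuous (fun l : ℝ => l * (l * pd j g (PL l x))) := fun j =>
    continuous_id.mul (continuous_id.mul (cont_l (sm_pd hg j) x))
  have i0 : IntervalIntegrable (fun l : ℝ => 2 * (l * g (PL l x))) volume 0 1 := (continuous_const.mul c0).intervalIntegrable _ _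
  have i1 : ∀ j : Fin 3, IntervalIntegrable (fun l : ℝ => x j * (l * (l * pd j g (PL l x)))) volume 0 1 := fun j =>
    (continuous_const.mul (c1 j)).intervalIntegrable _ _
  have i2 : IntervalIntegrable (fun l : ℝ => x 0 * (l * (l * pd 0 g (PL l x))) + x 1 * (l * (l * pd 1 g (PL l x)))) volume 0 1 :=
    (i1 0).add (i1 1)
  have hi := intervalIntegral.integral_eq_sub_of_hasDerivAt hd (i0.add i2)
  rw [intervalIntegral.integral_add i0 i2, intervalIntegral.integral_add (i1 0) (i1 1), intervalIntegral.integral_const_mul,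
    intervalIntegral.integral_const_mul, intervalIntegral.integral_const_mul] at hi
  have e0 : pd 0 (AA g) x = ∫ l in (0 : ℝ)..1, l * (l * pd 0 g (PL l x)) := by
    rw [pd_AA hg 0 x]
    simp [cc]
  have e1 : pd 1 (AA g) x = ∫ l in (0 : ℝ)..1, l * (l * pd 1 g (PL l x)) := by
    rw [pd_AA hg 1 x]
    simp [cc]
  unfold RR
  rw [e0, e1, AA_eq, hi]
  have e2 : PL 1 x = x := by
    funext i
    fin_cases i <;> simp [PL]
  rw [e2]
  ring

theorem pd2_AA {g : V → ℝ} (hg : ContDiff ℝ ∞ g) : pd 2 (AA g) = AA (pd 2 g) := by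
  funext x
  rw [pd_AA hg 2 x, AA_eq]
  simp [cc]

theorem PL_rot (l θ : ℝ) (x : V) : PL l (rot θ x) = rot θ (PL l x) := by
  funext i
  fin_cases i
  · simp [PL, rot]; ring
  · simp [PL, rot]; ring
  · simp [PL, rot]

theorem AxF_AA {g : V → ℝ} (hg : AxF g) : AxF (AA g) := by
  intro θ x
  rw [AA_eq, AA_eq]
  congr 1
  funext l
  rw [PL_rot, hg]

/-- a smooth map into the interval which is the identity near `t₀` -/
theorem exists_retract {a b t₀ : ℝ} (h : t₀ ∈ Ioo a b) : ∃ θ : ℝ → ℝ, ContDiff ℝ ∞ θ ∧ (∀ t, θ t ∈ Ioo a b) ∧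
    ∀ᶠ t in 𝓝 t₀, θ t = t := by
  set r : ℝ := min (t₀ - a) (b - t₀) / 3 with hr
  have h1 : 0 < t₀ - a := by linarith [h.1]
  have h2 : 0 < b - t₀ := by linarith [h.2]
  have hr0 : 0 < r := by
    have := lt_min h1 h2
    positivity
  have hra : 3 * r ≤ t₀ - a := by
    have := min_le_left (t₀ - a) (b - t₀)
    linarith
  have hrb : 3 * r ≤ b - t₀ := by
    have := min_le_right (t₀ - a) (b - t₀)
    linarith
  let f : ContDiffBump t₀ := ⟨r, 2 * r, hr0, by linarith⟩
  refine ⟨fun t => t₀ + f t * (t - t₀), ?_, ?_, ?_⟩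
  · exact contDiff_const.add (f.contDiff.mul (contDiff_id.sub contDiff_const))
  · intro t
    have h3 : |f t * (t - t₀)| ≤ 2 * r := by
      by_cases ht : dist t t₀ ≤ 2 * r
      · rw [abs_mul, abs_of_nonneg f.nonneg]
        have h4 : f t ≤ 1 := f.le_one
        rw [Real.dist_eq] at ht
        calc f t * |t - t₀| ≤ 1 * |t - t₀| := mul_le_mul_of_nonneg_right h4 (abs_nonneg _)
          _ ≤ 2 * r := by linarith
      · have h4 : f t = 0 := f.zero_of_le_dist (le_of_lt (not_le.1 ht))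
        rw [h4, zero_mul, abs_zero]
        linarith
    have h4 := abs_le.1 h3
    constructor
    · show a < t₀ + f t * (t - t₀)
      linarith [h4.1]
    · show t₀ + f t * (t - t₀) < b
      linarith [h4.2]
  · filter_upwards [closedBall_mem_nhds t₀ hr0] with t ht
    have h3 : f t = 1 := f.one_of_mem_closedBall ht
    rw [h3]
    ring

theorem par_AA (a b : ℝ) (g : ℝ → V → ℝ) (hg : ContDiffOn ℝ ∞ (fun z : ℝ × V => g z.1 z.2) (Ioo a b ×ˢ univ)) :
    ContDiffOn ℝ ∞ (fun z : ℝ × V => AA (g z.1) z.2) (Ioo a b ×ˢ univ) := by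
  rintro ⟨t₀, x₀⟩ hz
  obtain ⟨θ, hθ, hθ1, hθ2⟩ := exists_retract hz.1
  have h1 : ContDiff ℝ ∞ (fun p : (ℝ × V) × ℝ => (θ p.1.1, PL p.2 p.1.2)) :=
    (hθ.comp (contDiff_fst.comp contDiff_fst)).prodMk
      (cd_PL.comp ((contDiff_snd.comp contDiff_fst).prodMk contDiff_snd))
  have h2 : ContDiff ℝ ∞ ((fun z : ℝ × V => g z.1 z.2) ∘ fun p : (ℝ × V) × ℝ => (θ p.1.1, PL p.2 p.1.2)) :=
    hg.comp_contDiff h1 (fun p => ⟨hθ1 _, trivial⟩)
  have h3 : ContDiff ℝ ∞ (fun p : (ℝ × V) × ℝ => p.2 * g (θ p.1.1) (PL p.2 p.1.2)) := contDiff_snd.mul h2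
  have h4 := Pool.Agent.W585.contDiff_param (F := fun (z : ℝ × V) (l : ℝ) => l * g (θ z.1) (PL l z.2)) h3 0 1
  refine (h4.contDiffAt.congr_of_eventuallyEq ?_).contDiffWithinAt
  have h5 : ∀ᶠ z : ℝ × V in 𝓝 (t₀, x₀), θ z.1 = z.1 := continuous_fst.continuousAt.eventually hθ2
  filter_upwards [h5] with z hz
  show AA (g z.1) z.2 = ∫ l in (0 : ℝ)..1, l * g (θ z.1) (PL l z.2)
  rw [hz]
  rfl

theorem aas : StmAAs :=
  ⟨fun _ hg => sm_AA hg, par_AA, fun _ hg => pd2_AA hg, fun _ hg x => two_AA hg x, fun _ _ h => AxF_AA h⟩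

end Pool.Agent.Q182.AXI
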