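import Pool.Agent.Q149.AXI.T1W
import Pool.Agent.Q67.AXI.Defs3

/-!
Project AXP (helper67), lemma AXP-1 (helper182): the stretching term.
-/

set_option autoImplicit false

open MeasureTheory Set Metric Filter Topology
open scoped ContDiff
open H459R3.NS Pool.Agent.W268.NS Pool.Agent.Q67.VD

namespace Pool.Agent.Q182.AXI.T1P

open Pool.Agent.Q85.CC Pool.Agent.Q85.CL Pool.Agent.TH305.AX Pool.Agent.Q67.AXI
open Pool.Agent.W583.MD (sm_pd pd_mul')
open Pool.Agent.Q149.AXI (sm_RR RR_mul pd_com pd2_RR pd_zero_of_max pd_off RR_sq sm_gr2 cs_pd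
  cs_gr2 gr2_nonneg Cy_closed Cy_bdd ld_of_pd line_zero sg_cont)

lemma int_pd {g : V → ℝ} (hg : ContDiff ℝ ∞ g) (hc : HasCompactSupport g) (i : Fin 3) :
    ∫ x, pd i g x = 0 :=
  line_zero (F := g) i (hg.continuous.integrable_of_hasCompactSupport hc)
    ((sm_pd hg i).continuous.integrable_of_hasCompactSupport (cs_pd hc i)) fun x => ld_of_pd hg i x

lemma int_RR {g : V → ℝ} (hg : ContDiff ℝ ∞ g) (hc : HasCompactSupport g) :
    ∫ x, (2 * g x + RR g x) = 0 := by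
  have s0 : ContDiff ℝ ∞ (fun y : V => y 0 * g y) := (sm_crd 0).mul hg
  have s1 : ContDiff ℝ ∞ (fun y : V => y 1 * g y) := (sm_crd 1).mul hg
  have c0 : HasCompactSupport (fun y : V => y 0 * g y) := hc.mul_left
  have c1 : HasCompactSupport (fun y : V => y 1 * g y) := hc.mul_left
  have e0 := int_pd s0 c0 0
  have e1 := int_pd s1 c1 1
  have i0 := (sm_pd s0 0).continuous.integrable_of_hasCompactSupport (μ := volume) (cs_pd c0 0)
  have i1 := (sm_pd s1 1).continuous.integrable_of_hasCompactSupport (μ := volume) (cs_pd c1 1)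
  have h3 := integral_add i0 i1
  rw [e0, e1, add_zero] at h3
  rw [← h3]
  refine integral_congr_ae (Eventually.of_forall fun x => ?_)
  simp only
  rw [pd_mul' (sm_crd 0) hg, pd_mul' (sm_crd 1) hg, pd_crd, pd_crd]
  unfold RR
  simp
  ring

/-- The bound of the gradient of `UU`. -/
lemma grU {v : V → V} {U : V → ℝ} (hv : ContDiff ℝ ∞ v) (hU : ContDiff ℝ ∞ U)
    (h : ∀ x, rad v x = sg x * U x) {x : V} (hx : sg x ≠ 0) :
    sg x * U x ^ 2 ≤ W221.NS.nsq v x ∧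
    sg x ^ 2 * gr2 U x ≤ 15 * W221.NS.nsq v x + 3 * (sg x * W221.NS.gsq v x) := by
  have hs : 0 < sg x := lt_of_le_of_ne (sg_nonneg x) (Ne.symm hx)
  have hv' : ∀ i, ContDiff ℝ ∞ (fun y => v y i) := fun i => (contDiff_pi.1 hv) i
  have e1 : W221.NS.nsq v x = v x 0 ^ 2 + v x 1 ^ 2 + v x 2 ^ 2 := by
    unfold W221.NS.nsq
    rw [Fin.sum_univ_three]
  have hA : sg x * U x ^ 2 ≤ W221.NS.nsq v x := by
    have h1 : (sg x * U x) ^ 2 ≤ sg x * (v x 0 ^ 2 + v x 1 ^ 2) := by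
      rw [← h x]
      unfold rad sg
      nlinarith [sq_nonneg (x 0 * v x 1 - x 1 * v x 0)]
    have h2 : sg x * (sg x * U x ^ 2) ≤ sg x * W221.NS.nsq v x := by
      rw [e1]
      nlinarith [mul_nonneg hs.le (sq_nonneg (v x 2))]
    exact le_of_mul_le_mul_left h2 hs
  refine ⟨hA, ?_⟩
  have ss : ContDiff ℝ ∞ sg := by
    unfold sg
    exact ((sm_crd 0).pow 2).add ((sm_crd 1).pow 2)
  have hr : rad v = fun y => sg y * U y := funext h
  have psg : ∀ i : Fin 3, pd i sg x = 2 * x 0 * (if i = 0 then 1 else 0)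
      + 2 * x 1 * (if i = 1 then 1 else 0) := by
    intro i
    have es : sg = fun y : V => (fun z : V => z 0 * z 0) y + (fun z : V => z 1 * z 1) y := by
      funext y
      unfold sg
      ring
    have s0 : ContDiff ℝ ∞ (fun z : V => z 0 * z 0) := (sm_crd 0).mul (sm_crd 0)
    have s1 : ContDiff ℝ ∞ (fun z : V => z 1 * z 1) := (sm_crd 1).mul (sm_crd 1)
    have e2 : pd i (fun y : V => (fun z : V => z 0 * z 0) y + (fun z : V => z 1 * z 1) y) x
        = pd i (fun z : V => z 0 * z 0) x + pd i (fun z : V => z 1 * z 1) x :=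
      congrFun (Pool.Agent.TH305.DR.pd_add' s0 s1 i) x
    rw [es, e2, pd_mul' (sm_crd 0) (sm_crd 0), pd_mul' (sm_crd 1) (sm_crd 1), pd_crd, pd_crd]
    fin_cases i <;> simp <;> ring
  have prad : ∀ i : Fin 3, pd i (rad v) x = v x 0 * (if i = 0 then 1 else 0)
      + x 0 * pd i (fun y => v y 0) x + (v x 1 * (if i = 1 then 1 else 0)
      + x 1 * pd i (fun y => v y 1) x) := by
    intro i
    have s0 : ContDiff ℝ ∞ (fun z : V => z 0 * v z 0) := (sm_crd 0).mul (hv' 0)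
    have s1 : ContDiff ℝ ∞ (fun z : V => z 1 * v z 1) := (sm_crd 1).mul (hv' 1)
    have es : rad v = fun y : V => (fun z : V => z 0 * v z 0) y + (fun z : V => z 1 * v z 1) y :=
      rfl
    have e2 : pd i (fun y : V => (fun z : V => z 0 * v z 0) y + (fun z : V => z 1 * v z 1) y) x
        = pd i (fun z : V => z 0 * v z 0) x + pd i (fun z : V => z 1 * v z 1) x :=
      congrFun (Pool.Agent.TH305.DR.pd_add' s0 s1 i) x
    rw [es, e2, pd_mul' (sm_crd 0) (hv' 0), pd_mul' (sm_crd 1) (hv' 1), pd_crd, pd_crd]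
    fin_cases i <;> simp <;> ring
  have key : ∀ i : Fin 3, sg x * pd i U x = v x 0 * (if i = 0 then 1 else 0)
      + x 0 * pd i (fun y => v y 0) x + (v x 1 * (if i = 1 then 1 else 0)
      + x 1 * pd i (fun y => v y 1) x) - (2 * x 0 * (if i = 0 then 1 else 0)
      + 2 * x 1 * (if i = 1 then 1 else 0)) * U x := by
    intro i
    have h3 := prad i
    rw [hr, pd_mul' ss hU, psg i] at h3
    linarith
  have k0 := key 0
  have k1 := key 1
  have k2 := key 2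
  simp only [Fin.isValue, ↓reduceIte, Fin.reduceEq, mul_one, mul_zero, add_zero, zero_add,
    zero_mul, sub_zero] at k0 k1 k2
  have cs : ∀ a b : ℝ, (x 0 * a + x 1 * b) ^ 2 ≤ sg x * (a ^ 2 + b ^ 2) := by
    intro a b
    unfold sg
    nlinarith [sq_nonneg (x 0 * b - x 1 * a)]
  have t3 : ∀ a b c : ℝ, (a + b - c) ^ 2 ≤ 3 * (a ^ 2 + b ^ 2 + c ^ 2) := by
    intro a b c
    nlinarith [sq_nonneg (a - b), sq_nonneg (a + c), sq_nonneg (b + c)]
  have q0 : (sg x * pd 0 U x) ^ 2 ≤ 3 * (v x 0 ^ 2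
      + sg x * (pd 0 (fun y => v y 0) x ^ 2 + pd 0 (fun y => v y 1) x ^ 2)
      + 4 * x 0 ^ 2 * U x ^ 2) := by
    have h4 := t3 (v x 0) (x 0 * pd 0 (fun y => v y 0) x + x 1 * pd 0 (fun y => v y 1) x)
      (2 * x 0 * U x)
    have h5 := cs (pd 0 (fun y => v y 0) x) (pd 0 (fun y => v y 1) x)
    have h6 : sg x * pd 0 U x = v x 0 + (x 0 * pd 0 (fun y => v y 0) x
      + x 1 * pd 0 (fun y => v y 1) x) - 2 * x 0 * U x := by linarith
    rw [h6]
    nlinarith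
  have q1 : (sg x * pd 1 U x) ^ 2 ≤ 3 * (v x 1 ^ 2
      + sg x * (pd 1 (fun y => v y 0) x ^ 2 + pd 1 (fun y => v y 1) x ^ 2)
      + 4 * x 1 ^ 2 * U x ^ 2) := by
    have h4 := t3 (v x 1) (x 0 * pd 1 (fun y => v y 0) x + x 1 * pd 1 (fun y => v y 1) x)
      (2 * x 1 * U x)
    have h5 := cs (pd 1 (fun y => v y 0) x) (pd 1 (fun y => v y 1) x)
    have h6 : sg x * pd 1 U x = v x 1 + (x 0 * pd 1 (fun y => v y 0) x
      + x 1 * pd 1 (fun y => v y 1) x) - 2 * x 1 * U x := by linarith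
    rw [h6]
    nlinarith
  have q2 : (sg x * pd 2 U x) ^ 2 ≤ 3 * (sg x * (pd 2 (fun y => v y 0) x ^ 2
      + pd 2 (fun y => v y 1) x ^ 2)) := by
    have h5 := cs (pd 2 (fun y => v y 0) x) (pd 2 (fun y => v y 1) x)
    have h6 : sg x * pd 2 U x = x 0 * pd 2 (fun y => v y 0) x
      + x 1 * pd 2 (fun y => v y 1) x := by linarith
    rw [h6]
    have : 0 ≤ sg x * (pd 2 (fun y => v y 0) x ^ 2 + pd 2 (fun y => v y 1) x ^ 2) := by positivity
    linarith
  have e2 : W221.NS.gsq v x = (pd 0 (fun y => v y 0) x ^ 2 + pd 1 (fun y => v y 0) x ^ 2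
      + pd 2 (fun y => v y 0) x ^ 2) + (pd 0 (fun y => v y 1) x ^ 2 + pd 1 (fun y => v y 1) x ^ 2
      + pd 2 (fun y => v y 1) x ^ 2) + (pd 0 (fun y => v y 2) x ^ 2 + pd 1 (fun y => v y 2) x ^ 2
      + pd 2 (fun y => v y 2) x ^ 2) := by
    unfold W221.NS.gsq
    simp only [Fin.sum_univ_three]
  have e3 : gr2 U x = pd 0 U x ^ 2 + pd 1 U x ^ 2 + pd 2 U x ^ 2 := by
    unfold gr2
    rw [Fin.sum_univ_three]
  have e4 : sg x * U x ^ 2 = x 0 ^ 2 * U x ^ 2 + x 1 ^ 2 * U x ^ 2 := by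
    unfold sg
    ring
  have hn : 0 ≤ sg x * (pd 0 (fun y => v y 2) x ^ 2 + pd 1 (fun y => v y 2) x ^ 2
      + pd 2 (fun y => v y 2) x ^ 2) := by positivity
  rw [e3, e2]
  have e5 : sg x ^ 2 * (pd 0 U x ^ 2 + pd 1 U x ^ 2 + pd 2 U x ^ 2) = (sg x * pd 0 U x) ^ 2
      + (sg x * pd 1 U x) ^ 2 + (sg x * pd 2 U x) ^ 2 := by ring
  rw [e5]
  rw [e1] at hA ⊢
  nlinarith [q0, q1, q2, hn, hA, e4, sq_nonneg (v x 2)]

/-- The pointwise inequality of the main term. -/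
lemma pt_main {s w a0 a1 a2 b0 b1 b2 p p' : ℝ} (hs : 0 ≤ s) (hp : p ^ 2 ≤ s * (a0 ^ 2 + a1 ^ 2))
    (hp' : p' ^ 2 ≤ s * (b0 ^ 2 + b1 ^ 2)) :
    2 * |w * (p * b2 - a2 * p')| ≤ 1 / 8 * (a0 ^ 2 + a1 ^ 2 + a2 ^ 2)
      + 8 * (s * w ^ 2 * (b0 ^ 2 + b1 ^ 2 + b2 ^ 2)) := by
  have h1 : (p * b2 - a2 * p') ^ 2 ≤ s * (a0 ^ 2 + a1 ^ 2 + a2 ^ 2) * (b0 ^ 2 + b1 ^ 2 + b2 ^ 2) := by
    obtain ⟨A, hA⟩ : ∃ A : ℝ, A = a0 ^ 2 + a1 ^ 2 := ⟨_, rfl⟩
    obtain ⟨B, hB⟩ : ∃ B : ℝ, B = b0 ^ 2 + b1 ^ 2 := ⟨_, rfl⟩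
    have hA0 : 0 ≤ A := by rw [hA]; positivity
    have hB0 : 0 ≤ B := by rw [hB]; positivity
    rw [← hA] at hp ⊢
    rw [← hB] at hp' ⊢
    -- (p b2 - a2 p')^2 ≤ (p^2 + s a2^2) (b2^2 + p'^2 / s)
    rcases hs.eq_or_lt with h0 | h0
    · rw [← h0] at hp hp' ⊢
      have e1 : p = 0 := by nlinarith
      have e2 : p' = 0 := by nlinarith
      rw [e1, e2]
      simp
    · have h2 : s * (p * b2 - a2 * p') ^ 2 ≤ (p ^ 2 + s * a2 ^ 2) * (s * b2 ^ 2 + p' ^ 2) := by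
        nlinarith [sq_nonneg (p * p' + s * (a2 * b2))]
      have h3 : (p ^ 2 + s * a2 ^ 2) * (s * b2 ^ 2 + p' ^ 2)
          ≤ (s * (A + a2 ^ 2)) * (s * (B + b2 ^ 2)) := by
        apply mul_le_mul
        · nlinarith
        · nlinarith
        · positivity
        · positivity
      have h4 : s * (p * b2 - a2 * p') ^ 2 ≤ s * (s * (A + a2 ^ 2) * (B + b2 ^ 2)) := by
        refine h2.trans (h3.trans (le_of_eq ?_))
        ring
      exact le_of_mul_le_mul_left h4 h0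
  obtain ⟨A, hA⟩ : ∃ A : ℝ, A = a0 ^ 2 + a1 ^ 2 + a2 ^ 2 := ⟨_, rfl⟩
  obtain ⟨B, hB⟩ : ∃ B : ℝ, B = b0 ^ 2 + b1 ^ 2 + b2 ^ 2 := ⟨_, rfl⟩
  rw [← hA, ← hB] at h1 ⊢
  have hA0 : 0 ≤ A := by rw [hA]; positivity
  have hB0 : 0 ≤ B := by rw [hB]; positivity
  have hw : 0 ≤ s * w ^ 2 * B := by positivity
  apply abs_le_of_sq_le_sq' _ (by positivity) |>.2 |> fun h => h
  have e : (2 * |w * (p * b2 - a2 * p')|) ^ 2 = 4 * (w ^ 2 * (p * b2 - a2 * p') ^ 2) := by
    rw [mul_pow, sq_abs]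
    ring
  rw [e]
  have h5 : w ^ 2 * (p * b2 - a2 * p') ^ 2 ≤ w ^ 2 * (s * A * B) :=
    mul_le_mul_of_nonneg_left h1 (sq_nonneg w)
  nlinarith [sq_nonneg (1 / 8 * A - 8 * (s * w ^ 2 * B))]

/-- The logarithmic factor. -/
lemma log_fac {M α' s : ℝ} (hM : 3 ≤ M) (h1 : 1 < α') (h2 : α' ≤ 2) (hs : 0 < s)
    (h : s ≤ M ^ (-(1 / 8) : ℝ)) :
    Real.log s ≠ 0 ∧ |Real.log s| ^ (2 - 2 * α') ≤ 64 * Real.log M ^ (2 - 2 * α') := by
  have hM0 : 0 < M := by linarith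
  have hlM : 0 < Real.log M := Real.log_pos (by linarith)
  have h3 : Real.log s ≤ -(1 / 8) * Real.log M := by
    have := Real.log_le_log hs h
    rwa [Real.log_rpow hM0] at this
  have h4 : 1 / 8 * Real.log M ≤ |Real.log s| := by
    have := neg_le_abs (Real.log s)
    linarith
  have h5 : 0 < 1 / 8 * Real.log M := by positivity
  refine ⟨by linarith [h3], ?_⟩
  have h6 := Real.rpow_le_rpow_of_nonpos h5 h4 (show 2 - 2 * α' ≤ 0 by linarith)
  refine h6.trans ?_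
  rw [Real.mul_rpow (by norm_num) hlM.le]
  apply mul_le_mul_of_nonneg_right _ (Real.rpow_nonneg hlM.le _)
  have h7 : (1 / 8 : ℝ) ^ (2 - 2 * α') = 8 ^ (2 * α' - 2) := by
    rw [one_div, Real.inv_rpow (by norm_num), ← Real.rpow_neg (by norm_num)]
    congr 1
    ring
  rw [h7]
  have h8 : (8 : ℝ) ^ (2 * α' - 2) ≤ 8 ^ (2 : ℝ) :=
    Real.rpow_le_rpow_of_exponent_le (by norm_num) (by linarith)
  refine h8.trans ?_
  norm_num

lemma caseA {s w C' L G α' : ℝ} (hs : 0 < s) (hl : Real.log s ≠ 0)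
    (h : |s * w| ≤ C' * |Real.log s| ^ (-α')) (hL : |Real.log s| ^ (2 - 2 * α') ≤ 64 * L)
    (hG : 0 ≤ G) : s * w ^ 2 * G ≤ 64 * C' ^ 2 * L * (G / (s * Real.log s ^ 2)) := by
  have hl0 : 0 < |Real.log s| := abs_pos.2 hl
  have e1 : (|Real.log s| ^ (-α')) ^ 2 = |Real.log s| ^ (2 - 2 * α') / Real.log s ^ 2 := by
    rw [← sq_abs (Real.log s), ← Real.rpow_natCast, ← Real.rpow_mul hl0.le,
      ← Real.rpow_natCast |Real.log s| 2, ← Real.rpow_sub hl0]
    congr 1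
    push_cast
    ring
  have h1 : (s * w) ^ 2 ≤ C' ^ 2 * (64 * L / Real.log s ^ 2) := by
    have h2 : (s * w) ^ 2 ≤ (C' * |Real.log s| ^ (-α')) ^ 2 := by
      rw [← sq_abs]
      exact pow_le_pow_left₀ (abs_nonneg _) h 2
    refine h2.trans ?_
    rw [mul_pow, e1]
    apply mul_le_mul_of_nonneg_left _ (sq_nonneg _)
    exact div_le_div_of_nonneg_right hL (sq_nonneg _)
  have e2 : s * w ^ 2 * G = (s * w) ^ 2 * (G / s) := by
    field_simp
  have e3 : 64 * C' ^ 2 * L * (G / (s * Real.log s ^ 2))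
      = C' ^ 2 * (64 * L / Real.log s ^ 2) * (G / s) := by
    field_simp
  rw [e2, e3]
  exact mul_le_mul_of_nonneg_right h1 (by positivity)

lemma caseB {s w C₀ G m U n g gU K : ℝ} (hs : 0 < s) (hm : s⁻¹ ≤ m) (hm1 : 1 ≤ m)
    (h : |s * w| ≤ C₀) (hG : G ≤ 2 * gU + 6 * K ^ 2 * U ^ 2) (hn : 0 ≤ n) (hg : 0 ≤ g)
    (hU : s * U ^ 2 ≤ n) (hgU : s ^ 2 * gU ≤ 15 * n + 3 * (s * g)) (hG0 : 0 ≤ G) :
    s * w ^ 2 * G ≤ C₀ ^ 2 * (36 + 6 * K ^ 2) * m ^ 3 * (g + n) := by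
  obtain ⟨y, hy⟩ : ∃ y : ℝ, y = s⁻¹ := ⟨_, rfl⟩
  have hsy : s * y = 1 := by rw [hy]; exact mul_inv_cancel₀ hs.ne'
  have hy0 : 0 < y := by rw [hy]; positivity
  rw [← hy] at hm
  have hC₀ : 0 ≤ C₀ := (abs_nonneg _).trans h
  have h1 : s * w ^ 2 ≤ C₀ ^ 2 * y := by
    have h2 : (s * w) ^ 2 ≤ C₀ ^ 2 := by
      rw [← sq_abs]
      exact pow_le_pow_left₀ (abs_nonneg _) h 2
    have e : s * w ^ 2 = (s * w) ^ 2 * y := by
      calc s * w ^ 2 = (s * w ^ 2) * (s * y) := by rw [hsy, mul_one]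
        _ = _ := by ring
    rw [e]
    exact mul_le_mul_of_nonneg_right h2 hy0.le
  have h2 : U ^ 2 ≤ n * y := by
    have := mul_le_mul_of_nonneg_right hU hy0.le
    calc U ^ 2 = (s * y) * U ^ 2 := by rw [hsy, one_mul]
      _ = s * U ^ 2 * y := by ring
      _ ≤ _ := this
  have h3 : gU ≤ 15 * n * y ^ 2 + 3 * g * y := by
    have := mul_le_mul_of_nonneg_right hgU (sq_nonneg y)
    calc gU = (s * y) ^ 2 * gU := by rw [hsy, one_pow, one_mul]
      _ = s ^ 2 * gU * y ^ 2 := by ring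
      _ ≤ _ := this
      _ = 15 * n * y ^ 2 + 3 * g * y * (s * y) := by ring
      _ = _ := by rw [hsy, mul_one]
  have h4 : G ≤ 2 * (15 * n * y ^ 2 + 3 * g * y) + 6 * K ^ 2 * (n * y) := by
    have := mul_le_mul_of_nonneg_left h2 (show 0 ≤ 6 * K ^ 2 by positivity)
    linarith
  have y2 : y ^ 2 ≤ m ^ 2 := pow_le_pow_left₀ hy0.le hm 2
  have y3 : y ^ 3 ≤ m ^ 3 := pow_le_pow_left₀ hy0.le hm 3
  have m23 : m ^ 2 ≤ m ^ 3 := pow_le_pow_right₀ hm1 (by norm_num)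
  calc s * w ^ 2 * G ≤ C₀ ^ 2 * y * (2 * (15 * n * y ^ 2 + 3 * g * y) + 6 * K ^ 2 * (n * y)) :=
        mul_le_mul h1 h4 hG0 (by positivity)
    _ = C₀ ^ 2 * (30 * n * y ^ 3 + 6 * g * y ^ 2 + 6 * K ^ 2 * n * y ^ 2) := by ring
    _ ≤ C₀ ^ 2 * (30 * n * m ^ 3 + 6 * g * m ^ 3 + 6 * K ^ 2 * n * m ^ 3) := by
        have := y2.trans m23
        gcongr
    _ ≤ C₀ ^ 2 * (36 + 6 * K ^ 2) * m ^ 3 * (g + n) := by
        have hm3 : 0 ≤ m ^ 3 := by positivity
        have a1 : 0 ≤ C₀ ^ 2 * (m ^ 3 * n) := by positivity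
        have a2 : 0 ≤ C₀ ^ 2 * (m ^ 3 * g) := by positivity
        have a3 : 0 ≤ C₀ ^ 2 * K ^ 2 * (m ^ 3 * g) := by positivity
        nlinarith

/-- The pointwise bound of the weight. -/
lemma wgt {v : V → V} {φ U W : V → ℝ} {M P α' C' C₀ K : ℝ} (hv : ContDiff ℝ ∞ v)
    (sU : ContDiff ℝ ∞ U) (sφ : ContDiff ℝ ∞ φ) (hrad : ∀ x, rad v x = sg x * U x)
    (hcirc : ∀ x, circ v x = sg x * W x) (hM : 3 ≤ M) (hP : 0 < P) (h1 : 1 < α') (h2 : α' ≤ 2)
    (hφ0 : ∀ x, |φ x| ≤ 1) (hφ : ∀ x i, |pd i φ x| ≤ K) {x : V} (hx : sg x ≠ 0)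
    (hc0 : |circ v x| ≤ C₀) (hc1 : sg x ≤ P → |circ v x| ≤ C' * |Real.log (sg x)| ^ (-α')) :
    sg x * W x ^ 2 * gr2 (fun y => φ y * U y) x ≤
      64 * C' ^ 2 * Real.log M ^ (2 - 2 * α') *
        (gr2 (fun y => φ y * U y) x / (sg x * Real.log (sg x) ^ 2))
      + C₀ ^ 2 * (36 + 6 * K ^ 2) * M ^ (3 / 8 : ℝ) * (W221.NS.gsq v x + W221.NS.nsq v x)
      + C₀ ^ 2 * PM M P * gr2 (fun y => φ y * U y) x := by
  have hs : 0 < sg x := lt_of_le_of_ne (sg_nonneg x) (Ne.symm hx)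
  have hM0 : 0 < M := by linarith
  have hlM : 0 < Real.log M := Real.log_pos (by linarith)
  obtain ⟨G, hG⟩ : ∃ G : ℝ, G = gr2 (fun y => φ y * U y) x := ⟨_, rfl⟩
  have hG0 : 0 ≤ G := by rw [hG]; exact gr2_nonneg _ _
  have hn : 0 ≤ W221.NS.nsq v x := Finset.sum_nonneg fun i _ => sq_nonneg _
  have hg : 0 ≤ W221.NS.gsq v x := Finset.sum_nonneg fun i _ =>
    Finset.sum_nonneg fun j _ => sq_nonneg _
  have hPM : 0 ≤ PM M P := by
    unfold PM
    split_ifs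
    · positivity
    · exact le_rfl
  have hG2 : G ≤ 2 * gr2 U x + 6 * K ^ 2 * U x ^ 2 := by
    rw [hG]
    have hi : ∀ i, pd i (fun y => φ y * U y) x ^ 2 ≤ 2 * pd i U x ^ 2 + 2 * K ^ 2 * U x ^ 2 := by
      intro i
      rw [pd_mul' sφ sU]
      have b1 : (φ x * pd i U x) ^ 2 ≤ pd i U x ^ 2 := by
        rw [mul_pow]
        have : φ x ^ 2 ≤ 1 := by
          rw [← sq_abs]
          exact pow_le_one₀ (abs_nonneg _) (hφ0 x)
        exact mul_le_of_le_one_left (sq_nonneg _) this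
      have b2 : (U x * pd i φ x) ^ 2 ≤ K ^ 2 * U x ^ 2 := by
        rw [mul_pow, mul_comm]
        apply mul_le_mul_of_nonneg_right _ (sq_nonneg _)
        rw [← sq_abs]
        exact pow_le_pow_left₀ (abs_nonneg _) (hφ x i) 2
      nlinarith [sq_nonneg (φ x * pd i U x - U x * pd i φ x)]
    unfold gr2
    simp only [Fin.sum_univ_three]
    linarith [hi 0, hi 1, hi 2]
  rw [← hG]
  have t1 : 0 ≤ 64 * C' ^ 2 * Real.log M ^ (2 - 2 * α') * (G / (sg x * Real.log (sg x) ^ 2)) := by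
    have := Real.rpow_nonneg hlM.le (2 - 2 * α')
    positivity
  have t2 : 0 ≤ C₀ ^ 2 * (36 + 6 * K ^ 2) * M ^ (3 / 8 : ℝ)
      * (W221.NS.gsq v x + W221.NS.nsq v x) := by
    have := Real.rpow_nonneg hM0.le (3 / 8 : ℝ)
    positivity
  have t3 : 0 ≤ C₀ ^ 2 * PM M P * G := by positivity
  rw [hcirc x] at hc0 hc1
  rcases lt_or_ge (M ^ (-(1 / 8) : ℝ)) (sg x) with hB | hA
  · -- region B
    have hm : (sg x)⁻¹ ≤ M ^ (1 / 8 : ℝ) := by
      rw [Real.rpow_neg hM0.le] at hB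
      exact inv_le_of_inv_le₀ (by positivity) hB.le
    have hm1 : 1 ≤ M ^ (1 / 8 : ℝ) := Real.one_le_rpow (by linarith) (by norm_num)
    have hm3 : (M ^ (1 / 8 : ℝ)) ^ 3 = M ^ (3 / 8 : ℝ) := by
      rw [← Real.rpow_natCast, ← Real.rpow_mul hM0.le]
      norm_num
    obtain ⟨g1, g2⟩ := grU hv sU hrad hx
    have := caseB hs hm hm1 hc0 hG2 hn hg g1 g2 hG0
    rw [hm3] at this
    linarith
  · rcases le_or_gt (sg x) P with hp | hp
    · -- region A
      obtain ⟨hl, hL⟩ := log_fac hM h1 h2 hs hA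
      have := caseA hs hl (hc1 hp) hL hG0
      linarith
    · -- region C
      have hPM2 : PM M P = P⁻¹ := by
        unfold PM
        rw [if_pos (hp.trans_le hA)]
      have h5 : sg x * W x ^ 2 ≤ C₀ ^ 2 * P⁻¹ := by
        have h6 : (sg x * W x) ^ 2 ≤ C₀ ^ 2 := by
          rw [← sq_abs]
          exact pow_le_pow_left₀ (abs_nonneg _) hc0 2
        have h7 : (sg x)⁻¹ ≤ P⁻¹ := by
          rw [inv_le_inv₀ hs hP]
          exact hp.le
        have e : sg x * W x ^ 2 = (sg x * W x) ^ 2 * (sg x)⁻¹ := by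
          field_simp
        rw [e]
        exact mul_le_mul h6 h7 (by positivity) (by positivity)
      have h8 := mul_le_mul_of_nonneg_right h5 hG0
      rw [hPM2] at t3 ⊢
      linarith

lemma gsq_cont {v : V → V} (hv : ContDiff ℝ ∞ v) : Continuous (W221.NS.gsq v) := by
  unfold W221.NS.gsq
  exact continuous_finsetSum _ fun i _ => continuous_finsetSum _ fun j _ =>
    ((sm_pd ((contDiff_pi.1 hv) i) j).continuous).pow 2

lemma nsq_cont {v : V → V} (hv : ContDiff ℝ ∞ v) : Continuous (W221.NS.nsq v) := by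
  unfold W221.NS.nsq
  exact continuous_finsetSum _ fun i _ => (((contDiff_pi.1 hv) i).continuous).pow 2

lemma hs2_nonneg (f : V → ℝ) (x : V) : 0 ≤ hs2 f x :=
  Finset.sum_nonneg fun _ _ => Finset.sum_nonneg fun _ _ => sq_nonneg _

/-- The logarithmic Hardy inequality for the gradient. -/
lemma har_gr (hHar : StmHar) {B : V → ℝ} (sB : ContDiff ℝ ∞ B) (cB : HasCompactSupport B)
    (hB : ∀ x ∈ tsupport B, sg x ≤ Real.exp (-2)) :
    Integrable (fun x => gr2 B x / (sg x * Real.log (sg x) ^ 2)) ∧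
    ∫ x, gr2 B x / (sg x * Real.log (sg x) ^ 2) ≤ HD B := by
  have hi : ∀ i : Fin 3, Integrable (fun x => pd i B x ^ 2 / (sg x * Real.log (sg x) ^ 2)) ∧
      ∫ x, pd i B x ^ 2 / (sg x * Real.log (sg x) ^ 2) ≤
        ∫ x, (pd 0 (pd i B) x ^ 2 + pd 1 (pd i B) x ^ 2) := by
    intro i
    refine hHar (pd i B) ((sm_pd sB i).of_le (by norm_cast)) (cs_pd cB i) fun x hx => ?_
    apply hB
    by_contra hcon
    exact hx (pd_off hcon i)
  have e1 : ∀ x, gr2 B x / (sg x * Real.log (sg x) ^ 2) =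
      pd 0 B x ^ 2 / (sg x * Real.log (sg x) ^ 2) + pd 1 B x ^ 2 / (sg x * Real.log (sg x) ^ 2)
        + pd 2 B x ^ 2 / (sg x * Real.log (sg x) ^ 2) := by
    intro x
    unfold gr2
    rw [Fin.sum_univ_three]
    ring
  have hc : ∀ i j : Fin 3, Integrable (fun x => pd j (pd i B) x ^ 2) := by
    intro i j
    refine (((sm_pd (sm_pd sB i) j).continuous).pow 2).integrable_of_hasCompactSupport ?_
    refine HasCompactSupport.intro (cs_pd (cs_pd cB i) j).isCompact fun x hx => ?_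
    show pd j (pd i B) x ^ 2 = 0
    rw [image_eq_zero_of_notMem_tsupport hx]
    norm_num
  have i01 := (hi 0).1.add (hi 1).1
  have i012 := i01.add (hi 2).1
  refine ⟨i012.congr (Eventually.of_forall fun x => (e1 x).symm), ?_⟩
  rw [integral_congr_ae (Eventually.of_forall e1)]
  have s1 := integral_add i01 (hi 2).1
  have s2 := integral_add (hi 0).1 (hi 1).1
  simp only [Pi.add_apply] at s1 s2
  rw [s1, s2]
  have h3 : ∀ i : Fin 3, ∫ x, (pd 0 (pd i B) x ^ 2 + pd 1 (pd i B) x ^ 2)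
      ≤ ∫ x, (pd 0 (pd i B) x ^ 2 + pd 1 (pd i B) x ^ 2 + pd 2 (pd i B) x ^ 2) := by
    intro i
    refine integral_mono ((hc i 0).add (hc i 1)) (((hc i 0).add (hc i 1)).add (hc i 2))
      fun x => ?_
    have := sq_nonneg (pd 2 (pd i B) x)
    simp only
    linarith
  have h4 : HD B = (∫ x, (pd 0 (pd 0 B) x ^ 2 + pd 1 (pd 0 B) x ^ 2 + pd 2 (pd 0 B) x ^ 2))
      + (∫ x, (pd 0 (pd 1 B) x ^ 2 + pd 1 (pd 1 B) x ^ 2 + pd 2 (pd 1 B) x ^ 2))
      + ∫ x, (pd 0 (pd 2 B) x ^ 2 + pd 1 (pd 2 B) x ^ 2 + pd 2 (pd 2 B) x ^ 2) := by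
    have j0 := ((hc 0 0).add (hc 0 1)).add (hc 0 2)
    have j1 := ((hc 1 0).add (hc 1 1)).add (hc 1 2)
    have j2 := ((hc 2 0).add (hc 2 1)).add (hc 2 2)
    have u1 := integral_add (j0.add j1) j2
    have u2 := integral_add j0 j1
    simp only [Pi.add_apply] at u1 u2
    rw [← u2, ← u1]
    unfold HD
    refine integral_congr_ae (Eventually.of_forall fun x => ?_)
    simp only [hs2, Fin.sum_univ_three]
    ring
  rw [h4]
  linarith [(hi 0).2, (hi 1).2, (hi 2).2, h3 0, h3 1, h3 2]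

/-- AXP-T1. -/
theorem t_T1P' (hAlg : StmAlg) (hHar : StmHar) (hU : StmU) : StmT1P := by
  intro K c r h r1 h1 C' C₀ α' hK hr1 hr hre hh1 hh hhle hC' hC₀ hα1 hα2
  have hr0 : 0 < r := hr1.trans hr
  have hrle : r ≤ 1 := by
    have h3 : Real.exp (-2) ≤ 1 := Real.exp_le_one_iff.2 (by norm_num)
    nlinarith
  obtain ⟨CU, hCU, hUC⟩ := hU K c r h r1 h1 hK hr1 hr hrle hh1 hh hhle
  obtain ⟨R, hR⟩ := Cy_bdd (c := c) (r := r) (h := h) hr0.le
  have hCym : MeasurableSet (Cy c r h) := (Cy_closed c r h).measurableSet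
  have hCoCy : ∀ x ∈ Co c r h, x ∈ Cy c r h := fun x hx => ⟨hx.1.le, hx.2.le⟩
  have hCom : MeasurableSet (Co c r h) := by
    have o1 : IsOpen {x : V | sg x < r ^ 2} := isOpen_lt sg_cont continuous_const
    have o2 : IsOpen {x : V | |x 2 - c| < h} := isOpen_lt (by fun_prop) continuous_const
    exact (o1.inter o2).measurableSet
  have hVf : volume (Cy c r h) < ⊤ :=
    (measure_mono hR).trans_lt measure_closedBall_lt_top
  obtain ⟨V0, hV0⟩ : ∃ V0 : ℝ, V0 = volume.real (Cy c r h) := ⟨_, rfl⟩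
  have hV0n : 0 ≤ V0 := by
    rw [hV0]
    exact measureReal_nonneg
  obtain ⟨CE, hCE⟩ : ∃ CE : ℝ, CE = 6 * K ^ 4 + 2 * K ^ 5 := ⟨_, rfl⟩
  have hCEn : 0 ≤ CE := by rw [hCE]; positivity
  obtain ⟨C1, hC1⟩ : ∃ C1 : ℝ, C1 = C₀ ^ 2 * (36 + 6 * K ^ 2) := ⟨_, rfl⟩
  have hC1n : 0 ≤ C1 := by rw [hC1]; positivity
  refine ⟨1024 * C' ^ 2 + 512 * C' ^ 2 * CU + 8 * C1 + 8 * C₀ ^ 2 * CU + 2 * CE * V0,
    by positivity, fun M P v φ hM hP hv hax hdiv hcut hbd hc0 hc1 => ?_⟩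
  obtain ⟨⟨sU, sW, sJ, sO⟩, -, -, halg⟩ := hAlg v hv hax
  obtain ⟨uH, uG, -, -⟩ := hUC v φ hv hax hdiv hcut hbd
  have hcirc : ∀ x, circ v x = sg x * WW v x := fun x => by
    obtain ⟨-, -, -, -, -, -, -, -, h4, -⟩ := halg x
    exact h4
  have hrad : ∀ x, rad v x = sg x * UU v x := fun x => by
    obtain ⟨-, -, -, -, -, -, -, -, -, h4, -⟩ := halg x
    exact h4
  have sφ := hcut.sm
  have cφ := hcut.cs
  -- abbreviations
  obtain ⟨U, hUdef⟩ : ∃ U : V → ℝ, U = UU v := ⟨_, rfl⟩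
  obtain ⟨W, hWdef⟩ : ∃ W : V → ℝ, W = WW v := ⟨_, rfl⟩
  obtain ⟨J, hJdef⟩ : ∃ J : V → ℝ, J = JJ v := ⟨_, rfl⟩
  obtain ⟨f, hfdef⟩ : ∃ f : V → ℝ, f = fun x => φ x * J x := ⟨_, rfl⟩
  obtain ⟨B, hBdef⟩ : ∃ B : V → ℝ, B = fun x => φ x * U x := ⟨_, rfl⟩
  rw [← hUdef] at sU hrad uH uG
  rw [← hWdef] at sW hcirc
  rw [← hJdef] at sJ
  have sf : ContDiff ℝ ∞ f := by rw [hfdef]; exact sφ.mul sJ
  have cf : HasCompactSupport f := by rw [hfdef]; exact cφ.mul_right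
  have sB : ContDiff ℝ ∞ B := by rw [hBdef]; exact sφ.mul sU
  have cB : HasCompactSupport B := by rw [hBdef]; exact cφ.mul_right
  have sφf : ContDiff ℝ ∞ (fun x => φ x * f x) := sφ.mul sf
  have cφf : HasCompactSupport (fun x => φ x * f x) := cφ.mul_right
  have sW2 : ContDiff ℝ ∞ (fun x => W x * pd 2 U x) := sW.mul (sm_pd sU 2)
  have sWR : ContDiff ℝ ∞ (fun x => W x * RR U x) := sW.mul (sm_RR sU)
  have sG1 : ContDiff ℝ ∞ (fun x => (φ x * f x) * (W x * pd 2 U x)) := sφf.mul sW2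
  have sG2 : ContDiff ℝ ∞ (fun x => (φ x * f x) * (W x * RR U x)) := sφf.mul sWR
  have cG1 : HasCompactSupport (fun x => (φ x * f x) * (W x * pd 2 U x)) := cφf.mul_right
  have cG2 : HasCompactSupport (fun x => (φ x * f x) * (W x * RR U x)) := cφf.mul_right
  have ib1 := int_RR sG1 cG1
  have ib2 := int_pd sG2 cG2 2
  -- the remaining term
  obtain ⟨E, hE⟩ : ∃ E : V → ℝ, E = fun x => W x * U x * (RR f x * pd 2 φ x - pd 2 f x * RR φ x)
      + f x * (pd 2 φ x * W x * RR U x - RR φ x * W x * pd 2 U x) := ⟨_, rfl⟩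
  obtain ⟨T, hT⟩ : ∃ T : V → ℝ, T = fun x => -(W x * (RR f x * pd 2 B x - pd 2 f x * RR B x))
      + E x := ⟨_, rfl⟩
  have hRB : ∀ x, RR B x = φ x * RR U x + U x * RR φ x := fun x => by
    rw [hBdef]
    exact RR_mul sφ sU x
  have h2B : ∀ x, pd 2 B x = φ x * pd 2 U x + U x * pd 2 φ x := fun x => by
    rw [hBdef, pd_mul' sφ sU]
    ring
  have hid : ∀ x, φ x ^ 2 * JJ v x * SS v x
      = (2 * ((φ x * f x) * (W x * pd 2 U x))
        + RR (fun x => (φ x * f x) * (W x * pd 2 U x)) x)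
        - pd 2 (fun x => (φ x * f x) * (W x * RR U x)) x + T x := by
    intro x
    rw [RR_mul sφf sW2, RR_mul sφ sf, RR_mul sW (sm_pd sU 2), pd_mul' sφf sWR, pd_mul' sφ sf,
      pd_mul' sW (sm_RR sU), pd2_RR sU, hT]
    simp only []
    rw [hRB x, h2B x, hE]
    unfold SS
    rw [← hUdef, ← hWdef, ← hJdef, hfdef]
    ring
  have cG1c := sG1.continuous
  have iA : Integrable (fun x => (2 * ((φ x * f x) * (W x * pd 2 U x))
      + RR (fun x => (φ x * f x) * (W x * pd 2 U x)) x)) := by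
    have j1 := cG1c.integrable_of_hasCompactSupport (μ := volume) cG1
    have cR : HasCompactSupport (RR (fun x => (φ x * f x) * (W x * pd 2 U x))) := by
      refine HasCompactSupport.intro cG1.isCompact fun x hx => ?_
      unfold RR
      rw [pd_off hx, pd_off hx]
      ring
    have j2 := (sm_RR sG1).continuous.integrable_of_hasCompactSupport (μ := volume) cR
    exact (j1.const_mul 2).add j2
  have iB : Integrable (fun x => pd 2 (fun x => (φ x * f x) * (W x * RR U x)) x) :=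
    (sm_pd sG2 2).continuous.integrable_of_hasCompactSupport (cs_pd cG2 2)
  have hφoff : ∀ x, x ∉ tsupport φ → φ x = 0 ∧ f x = 0 ∧ B x = 0 ∧ RR φ x = 0 ∧
      (∀ i, pd i φ x = 0) ∧ (∀ i, pd i f x = 0) ∧ (∀ i, pd i B x = 0) ∧ RR f x = 0 ∧
      RR B x = 0 := by
    intro x hx
    have h2 : φ x = 0 := image_eq_zero_of_notMem_tsupport hx
    have hf : x ∉ tsupport f := fun hh => hx (by
      rw [hfdef] at hh
      exact tsupport_mul_subset_left hh)
    have hB : x ∉ tsupport B := fun hh => hx (by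
      rw [hBdef] at hh
      exact tsupport_mul_subset_left hh)
    refine ⟨h2, by rw [hfdef]; simp [h2], by rw [hBdef]; simp [h2], ?_, fun i => pd_off hx i,
      fun i => pd_off hf i, fun i => pd_off hB i, ?_, ?_⟩
    · unfold RR
      rw [pd_off hx, pd_off hx]
      ring
    · unfold RR
      rw [pd_off hf, pd_off hf]
      ring
    · unfold RR
      rw [pd_off hB, pd_off hB]
      ring
  have cT : Continuous T := by
    have c1 := sφ.continuous
    have c2 := sf.continuous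
    have c3 := sW.continuous
    have c3' := sU.continuous
    have c4 := (sm_pd sU 2).continuous
    have c5 := (sm_RR sU).continuous
    have c6 := (sm_RR sf).continuous
    have c7 := (sm_pd sf 2).continuous
    have c8 := (sm_pd sφ 2).continuous
    have c9 := (sm_RR sφ).continuous
    have c10 := (sm_RR sB).continuous
    have c11 := (sm_pd sB 2).continuous
    rw [hT, hE]
    fun_prop
  have sT : HasCompactSupport T := by
    refine HasCompactSupport.intro cφ.isCompact fun x hx => ?_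
    obtain ⟨z1, z2, z3, z4, z5, z6, z7, z8, z9⟩ := hφoff x hx
    rw [hT, hE]
    simp only [z2, z4, z5, z6, z7, z8, z9]
    ring
  have iT : Integrable T := cT.integrable_of_hasCompactSupport sT
  have hint : ∫ x, φ x ^ 2 * JJ v x * SS v x = ∫ x, T x := by
    rw [integral_congr_ae (Eventually.of_forall hid)]
    have e1 := integral_add (iA.sub iB) iT
    have e2 := integral_sub iA iB
    simp only [Pi.sub_apply] at e1 e2
    rw [e1, e2, ib1, ib2]
    ring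
  -- pointwise facts
  have hgφ : ∀ x, x ∈ Cy c r1 h1 → ∀ i, pd i φ x = 0 := by
    intro x hx i
    apply pd_zero_of_max
    intro y
    rw [hcut.one x hx]
    exact hcut.le y
  have hOut : ∀ x ∈ Co c r h, x ∉ Cy c r1 h1 → x ∈ Out c r h r1 h1 := by
    intro x hx hx2
    refine ⟨hCoCy x hx, ?_⟩
    by_contra hcon
    push Not at hcon
    exact hx2 ⟨hcon.1.le, hcon.2.le⟩
  have hφ1 : ∀ x, |φ x| ≤ 1 := by
    intro x
    rw [abs_of_nonneg (hcut.nn x)]
    exact hcut.le x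
  have hsg1 : ∀ x ∈ Cy c r h, sg x ≤ 1 := by
    intro x hx
    have h3 : sg x ≤ r ^ 2 := hx.1
    nlinarith
  have hxi : ∀ x ∈ Cy c r h, |x 0| ≤ 1 ∧ |x 1| ≤ 1 := by
    intro x hx
    have h3 := hsg1 x hx
    unfold sg at h3
    constructor
    · apply abs_le_of_sq_le_sq _ zero_le_one
      nlinarith [sq_nonneg (x 1)]
    · apply abs_le_of_sq_le_sq _ zero_le_one
      nlinarith [sq_nonneg (x 0)]
  have hRRb : ∀ x ∈ Cy c r h, ∀ g : V → ℝ, |pd 0 g x| ≤ K → |pd 1 g x| ≤ K →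
      |RR g x| ≤ 2 * K := by
    intro x hx g g0 g1
    obtain ⟨k0, k1⟩ := hxi x hx
    unfold RR
    calc |x 0 * pd 0 g x + x 1 * pd 1 g x| ≤ |x 0| * |pd 0 g x| + |x 1| * |pd 1 g x| := by
          rw [← abs_mul, ← abs_mul]
          exact abs_add_le _ _
      _ ≤ 1 * K + 1 * K := by
          apply add_le_add
          · exact mul_le_mul k0 g0 (abs_nonneg _) zero_le_one
          · exact mul_le_mul k1 g1 (abs_nonneg _) zero_le_one
      _ = 2 * K := by ring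
  -- the terms with derivatives of the cut-off function
  have hEb : ∀ x, |E x| ≤ CE * (Cy c r h).indicator (fun _ => (1 : ℝ)) x := by
    intro x
    have hind : 0 ≤ (Cy c r h).indicator (fun _ => (1 : ℝ)) x :=
      indicator_nonneg (fun _ _ => zero_le_one) x
    by_cases hxs : x ∈ tsupport φ
    swap
    · obtain ⟨z1, z2, z3, z4, z5, z6, z7, z8, z9⟩ := hφoff x hxs
      rw [hE]
      simp only [z2, z4, z5, z6]
      simp only [mul_zero, zero_mul, sub_zero, add_zero, abs_zero]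
      positivity
    have hx := hcut.supp hxs
    rw [indicator_of_mem (hCoCy x hx), mul_one]
    by_cases hx2 : x ∈ Cy c r1 h1
    · have e0 := hgφ x hx2 0
      have e1 := hgφ x hx2 1
      have e2 := hgφ x hx2 2
      have e3 : RR φ x = 0 := by
        unfold RR
        rw [e0, e1]
        ring
      rw [hE]
      simp only [e3, e2, mul_zero, zero_mul, sub_zero, add_zero, abs_zero]
      exact hCEn
    · obtain ⟨-, bU, bW, bJ, -, bd⟩ := hbd x (hOut x hx hx2)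
      rw [← hUdef] at bU
      rw [← hWdef] at bW
      rw [← hJdef] at bJ
      have bd0 := (bd 0).1
      have bd1 := (bd 1).1
      have bd2 := (bd 2).1
      rw [← hUdef] at bd0 bd1 bd2
      have bj0 := (bd 0).2.2.1
      have bj1 := (bd 1).2.2.1
      have bj2 := (bd 2).2.2.1
      rw [← hJdef] at bj0 bj1 bj2
      obtain ⟨bφ, -, bR⟩ := hcut.bd x
      have bφ2 := bφ 2
      have bf : |f x| ≤ K := by
        rw [hfdef]
        show |φ x * J x| ≤ K
        rw [abs_mul]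
        calc |φ x| * |J x| ≤ 1 * K := mul_le_mul (hφ1 x) bJ (abs_nonneg _) zero_le_one
          _ = K := one_mul K
      have bR' : |RR φ x| ≤ K := bR.trans (by
        have := hsg1 x (hCoCy x hx)
        nlinarith)
      have bRU : |RR U x| ≤ 2 * K := hRRb x (hCoCy x hx) U bd0 bd1
      have bRJ : |RR J x| ≤ 2 * K := hRRb x (hCoCy x hx) J bj0 bj1
      have bRf : |RR f x| ≤ 2 * K + K * K := by
        rw [hfdef, RR_mul sφ sJ]
        refine (abs_add_le _ _).trans ?_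
        rw [abs_mul, abs_mul]
        apply add_le_add
        · calc |φ x| * |RR J x| ≤ 1 * (2 * K) := mul_le_mul (hφ1 x) bRJ (abs_nonneg _) zero_le_one
            _ = 2 * K := one_mul _
        · exact mul_le_mul bJ bR' (abs_nonneg _) hK
      have b2f : |pd 2 f x| ≤ K + K * K := by
        rw [hfdef, pd_mul' sφ sJ]
        refine (abs_add_le _ _).trans ?_
        rw [abs_mul, abs_mul]
        apply add_le_add
        · calc |φ x| * |pd 2 J x| ≤ 1 * K := mul_le_mul (hφ1 x) bj2 (abs_nonneg _) zero_le_one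
            _ = K := one_mul _
        · exact mul_le_mul bφ2 bJ (abs_nonneg _) hK
      have tri : ∀ a b : ℝ, |a - b| ≤ |a| + |b| := fun a b => abs_sub a b
      rw [hE, hCE]
      simp only []
      calc _ ≤ |W x * U x * (RR f x * pd 2 φ x - pd 2 f x * RR φ x)|
            + |f x * (pd 2 φ x * W x * RR U x - RR φ x * W x * pd 2 U x)| := abs_add_le _ _
        _ = |W x| * |U x| * |RR f x * pd 2 φ x - pd 2 f x * RR φ x|
            + |f x| * |pd 2 φ x * W x * RR U x - RR φ x * W x * pd 2 U x| := by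
            simp only [abs_mul]
        _ ≤ |W x| * |U x| * (|RR f x * pd 2 φ x| + |pd 2 f x * RR φ x|)
            + |f x| * (|pd 2 φ x * W x * RR U x| + |RR φ x * W x * pd 2 U x|) := by
            gcongr
            · exact tri _ _
            · exact tri _ _
        _ = |W x| * |U x| * (|RR f x| * |pd 2 φ x| + |pd 2 f x| * |RR φ x|)
            + |f x| * (|pd 2 φ x| * |W x| * |RR U x| + |RR φ x| * |W x| * |pd 2 U x|) := by
            simp only [abs_mul]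
        _ ≤ K * K * ((2 * K + K * K) * K + (K + K * K) * K)
            + K * (K * K * (2 * K) + K * K * K) := by
            gcongr
        _ = 6 * K ^ 4 + 2 * K ^ 5 := by ring
  -- the main estimate
  obtain ⟨w, hw⟩ : ∃ w : V → ℝ, w = fun x => sg x * W x ^ 2 * gr2 B x := ⟨_, rfl⟩
  have cw : Continuous w := by
    have c1 := sg_cont
    have c2 := sW.continuous
    have c3 := sm_gr2 sB
    rw [hw]
    fun_prop
  have kw : HasCompactSupport w := by
    refine HasCompactSupport.intro cφ.isCompact fun x hx => ?_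
    obtain ⟨z1, z2, z3, z4, z5, z6, z7, z8, z9⟩ := hφoff x hx
    rw [hw]
    unfold gr2
    simp [z7]
  have iw : Integrable w := cw.integrable_of_hasCompactSupport kw
  have igf : Integrable (gr2 f) := (sm_gr2 sf).integrable_of_hasCompactSupport (cs_gr2 cf)
  have igB : Integrable (gr2 B) := (sm_gr2 sB).integrable_of_hasCompactSupport (cs_gr2 cB)
  have iCy : Integrable ((Cy c r h).indicator (fun _ : V => (1 : ℝ))) := by
    rw [integrable_indicator_iff hCym]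
    exact integrableOn_const hVf.ne
  have hTb : ∀ x, |2 * T x| ≤ 1 / 8 * gr2 f x + 8 * w x
      + 2 * CE * (Cy c r h).indicator (fun _ => (1 : ℝ)) x := by
    intro x
    have p1 := pt_main (w := W x) (a2 := pd 2 f x) (b2 := pd 2 B x) (sg_nonneg x) (RR_sq f x)
      (RR_sq B x)
    have e1 : gr2 f x = pd 0 f x ^ 2 + pd 1 f x ^ 2 + pd 2 f x ^ 2 := by
      unfold gr2
      rw [Fin.sum_univ_three]
    have e2 : gr2 B x = pd 0 B x ^ 2 + pd 1 B x ^ 2 + pd 2 B x ^ 2 := by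
      unfold gr2
      rw [Fin.sum_univ_three]
    rw [← e1, ← e2] at p1
    have p2 := hEb x
    have p3 : |T x| ≤ |W x * (RR f x * pd 2 B x - pd 2 f x * RR B x)| + |E x| := by
      rw [hT]
      refine (abs_add_le _ _).trans ?_
      rw [abs_neg]
    rw [abs_mul, abs_two, hw]
    simp only []
    linarith
  have hfin : 2 * |∫ x, T x| ≤ 1 / 8 * GD f + 8 * (∫ x, w x) + 2 * CE * V0 := by
    have e0 : 2 * |∫ x, T x| = |∫ x, 2 * T x| := by
      rw [integral_const_mul, abs_mul, abs_two]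
    rw [e0]
    refine abs_integral_le_integral_abs.trans ?_
    have j1 := (igf.const_mul (1 / 8)).add (iw.const_mul 8)
    refine (integral_mono (iT.const_mul 2).abs (j1.add (iCy.const_mul (2 * CE)))
      (fun x => hTb x)).trans (le_of_eq ?_)
    have e1 := integral_add j1 (iCy.const_mul (2 * CE))
    have e3 := integral_add (igf.const_mul (1 / 8)) (iw.const_mul 8)
    simp only [Pi.add_apply] at e1 e3 ⊢
    rw [e1, e3, integral_const_mul, integral_const_mul, integral_const_mul,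
      integral_indicator hCym]
    have e5 : ∫ x in Cy c r h, (1 : ℝ) = V0 := by
      rw [hV0]
      simp [Measure.real]
    rw [e5]
    rfl
  -- the bound of the integral of w
  have hBs : ∀ x ∈ tsupport B, sg x ≤ Real.exp (-2) := by
    intro x hx
    have h3 : x ∈ tsupport φ := by
      rw [hBdef] at hx
      exact tsupport_mul_subset_left hx
    exact (hcut.supp h3).1.le.trans hre
  obtain ⟨iH, hH⟩ := har_gr hHar sB cB hBs
  have cN : Continuous (fun x => W221.NS.gsq v x + W221.NS.nsq v x) :=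
    (gsq_cont hv).add (nsq_cont hv)
  have hNn : ∀ x, 0 ≤ W221.NS.gsq v x + W221.NS.nsq v x := fun x =>
    add_nonneg (Finset.sum_nonneg fun i _ => Finset.sum_nonneg fun j _ => sq_nonneg _)
      (Finset.sum_nonneg fun i _ => sq_nonneg _)
  have iN : IntegrableOn (fun x => W221.NS.gsq v x + W221.NS.nsq v x) (Co c r h) :=
    (cN.continuousOn.integrableOn_compact (isCompact_closedBall (0 : V) R)).mono_set
      fun x hx => hR (hCoCy x hx)
  have iN' := (integrable_indicator_iff hCom).2 iN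
  have e0 : ∀ᵐ x : V, x 0 ≠ 0 := Measure.ae_eval_ne (μ := fun _ => volume) 0 0
  have hwle : ∀ᵐ x : V, w x ≤ 64 * C' ^ 2 * Real.log M ^ (2 - 2 * α') *
        (gr2 B x / (sg x * Real.log (sg x) ^ 2))
      + C1 * M ^ (3 / 8 : ℝ) * (Co c r h).indicator
          (fun x => W221.NS.gsq v x + W221.NS.nsq v x) x
      + C₀ ^ 2 * PM M P * gr2 B x := by
    filter_upwards [e0] with x hx0
    have hsx : sg x ≠ 0 := by
      unfold sg
      positivity
    by_cases hxs : x ∈ tsupport φ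
    · have hx := hcut.supp hxs
      rw [indicator_of_mem hx]
      have := wgt (φ := φ) (K := K) hv sU sφ hrad hcirc hM hP hα1 hα2 hφ1
        (fun x i => (hcut.bd x).1 i) hsx (hc0 x hx) (hc1 x hx hsx)
      rw [hw, hC1, hBdef]
      exact this
    · obtain ⟨z1, z2, z3, z4, z5, z6, z7, z8, z9⟩ := hφoff x hxs
      have g0 : gr2 B x = 0 := by
        unfold gr2
        simp [z7]
      have hi0 : 0 ≤ (Co c r h).indicator (fun x => W221.NS.gsq v x + W221.NS.nsq v x) x :=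
        indicator_nonneg (fun y _ => hNn y) x
      have hM3 : 0 ≤ M ^ (3 / 8 : ℝ) := Real.rpow_nonneg (by linarith) _
      rw [hw]
      simp only [g0, mul_zero, zero_div, add_zero, zero_add]
      positivity
  have hwi : ∫ x, w x ≤ 64 * C' ^ 2 * Real.log M ^ (2 - 2 * α') * HD B
      + C1 * M ^ (3 / 8 : ℝ) * (∫ x in Co c r h, (W221.NS.gsq v x + W221.NS.nsq v x))
      + C₀ ^ 2 * PM M P * GD B := by
    have j1 := (iH.const_mul (64 * C' ^ 2 * Real.log M ^ (2 - 2 * α'))).add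
      (iN'.const_mul (C1 * M ^ (3 / 8 : ℝ)))
    have j2 := j1.add (igB.const_mul (C₀ ^ 2 * PM M P))
    refine (integral_mono_ae iw j2 hwle).trans ?_
    have e1 := integral_add j1 (igB.const_mul (C₀ ^ 2 * PM M P))
    have e3 := integral_add (iH.const_mul (64 * C' ^ 2 * Real.log M ^ (2 - 2 * α')))
      (iN'.const_mul (C1 * M ^ (3 / 8 : ℝ)))
    simp only [Pi.add_apply] at e1 e3 ⊢
    rw [e1, e3, integral_const_mul, integral_const_mul, integral_const_mul,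
      integral_indicator hCom]
    have hL : 0 ≤ Real.log M ^ (2 - 2 * α') :=
      Real.rpow_nonneg (Real.log_nonneg (by linarith)) _
    have h5 := mul_le_mul_of_nonneg_left hH
      (show 0 ≤ 64 * C' ^ 2 * Real.log M ^ (2 - 2 * α') by positivity)
    have h6 : GD B = ∫ x, gr2 B x := rfl
    rw [h6]
    linarith
  -- the end
  have hJ' : (fun x => φ x * JJ v x) = f := by rw [hfdef, hJdef]
  have hB' : (fun x => φ x * U x) = B := hBdef.symm
  rw [hJ', hint]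
  rw [hB'] at uH uG
  obtain ⟨L, hL⟩ : ∃ L : ℝ, L = Real.log M ^ (2 - 2 * α') := ⟨_, rfl⟩
  obtain ⟨m, hm⟩ : ∃ m : ℝ, m = M ^ (3 / 8 : ℝ) := ⟨_, rfl⟩
  obtain ⟨N, hN⟩ : ∃ N : ℝ, N = ∫ x in Co c r h, (W221.NS.gsq v x + W221.NS.nsq v x) := ⟨_, rfl⟩
  obtain ⟨G, hG⟩ : ∃ G : ℝ, G = GD (fun x => φ x * OO v x) := ⟨_, rfl⟩
  obtain ⟨O2, hO2⟩ : ∃ O2 : ℝ, O2 = ∫ x, φ x ^ 2 * OO v x ^ 2 := ⟨_, rfl⟩
  obtain ⟨Q, hQ⟩ : ∃ Q : ℝ, Q = PM M P := ⟨_, rfl⟩
  rw [← hL, ← hm, ← hN, ← hQ] at hwi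
  rw [← hG] at uH
  rw [← hO2] at uG
  rw [← hL, ← hm, ← hN, ← hG, ← hO2, ← hQ]
  have hM1 : 1 ≤ Real.log M := by
    rw [Real.le_log_iff_exp_le (by linarith)]
    have := Real.exp_one_lt_d9
    linarith
  have hL0 : 0 ≤ L := by
    rw [hL]
    exact Real.rpow_nonneg (by linarith) _
  have hL1 : L ≤ 1 := by
    rw [hL]
    exact Real.rpow_le_one_of_one_le_of_nonpos hM1 (by linarith)
  have hm1 : 1 ≤ m := by
    rw [hm]
    exact Real.one_le_rpow (by linarith) (by norm_num)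
  have hN0 : 0 ≤ N := by
    rw [hN]
    exact setIntegral_nonneg hCom fun x _ => hNn x
  have hG0 : 0 ≤ G := by
    rw [hG]
    exact integral_nonneg fun x => gr2_nonneg _ _
  have hO0 : 0 ≤ O2 := by
    rw [hO2]
    exact integral_nonneg fun x => by positivity
  have hQ0 : 0 ≤ Q := by
    rw [hQ]
    unfold PM
    split_ifs
    · positivity
    · exact le_rfl
  have a1 : 64 * C' ^ 2 * L * HD B ≤ 64 * C' ^ 2 * L * (2 * G + CU) :=
    mul_le_mul_of_nonneg_left uH (by positivity)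
  have a2 : C₀ ^ 2 * Q * GD B ≤ C₀ ^ 2 * Q * (CU * (1 + O2)) :=
    mul_le_mul_of_nonneg_left uG (by positivity)
  have a3 : C' ^ 2 * CU * L ≤ C' ^ 2 * CU * (m * (1 + N)) := by
    apply mul_le_mul_of_nonneg_left _ (by positivity)
    nlinarith [mul_nonneg (by linarith : (0 : ℝ) ≤ m) hN0]
  have a4 : CE * V0 ≤ CE * V0 * (m * (1 + N)) := by
    apply le_mul_of_one_le_right (by positivity)
    nlinarith [mul_nonneg (by linarith : (0 : ℝ) ≤ m) hN0]
  have a5 : C1 * m * N ≤ C1 * (m * (1 + N)) := by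
    have : 0 ≤ C1 * m := by positivity
    nlinarith
  obtain ⟨X, hX⟩ : ∃ X : ℝ, X = m * (1 + N) := ⟨_, rfl⟩
  obtain ⟨Y, hY⟩ : ∃ Y : ℝ, Y = L * G := ⟨_, rfl⟩
  obtain ⟨Z, hZ⟩ : ∃ Z : ℝ, Z = Q * (1 + O2) := ⟨_, rfl⟩
  have hX0 : 0 ≤ X := by rw [hX]; positivity
  have hY0 : 0 ≤ Y := by rw [hY]; positivity
  have hZ0 : 0 ≤ Z := by rw [hZ]; positivity
  rw [← hX] at a3 a4 a5
  have f1 : 2 * |∫ x, T x| ≤ 1 / 8 * GD f + (1024 * C' ^ 2 * Y + 512 * (C' ^ 2 * CU * X)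
      + 8 * (C1 * X) + 8 * (C₀ ^ 2 * CU * Z) + 2 * (CE * V0 * X)) := by
    have b1 : 64 * C' ^ 2 * L * (2 * G + CU) = 128 * C' ^ 2 * Y + 64 * (C' ^ 2 * CU * L) := by
      rw [hY]; ring
    have b2 : C₀ ^ 2 * Q * (CU * (1 + O2)) = C₀ ^ 2 * CU * Z := by
      rw [hZ]; ring
    linarith
  have f2 : (1024 * C' ^ 2 + 512 * C' ^ 2 * CU + 8 * C1 + 8 * C₀ ^ 2 * CU + 2 * CE * V0) * L * G
      + (1024 * C' ^ 2 + 512 * C' ^ 2 * CU + 8 * C1 + 8 * C₀ ^ 2 * CU + 2 * CE * V0) * m * (1 + N)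
      + (1024 * C' ^ 2 + 512 * C' ^ 2 * CU + 8 * C1 + 8 * C₀ ^ 2 * CU + 2 * CE * V0) * Q * (1 + O2)
      = (1024 * C' ^ 2 + 512 * C' ^ 2 * CU + 8 * C1 + 8 * C₀ ^ 2 * CU + 2 * CE * V0)
        * (X + Y + Z) := by
    rw [hX, hY, hZ]
    ring
  have g1 : 0 ≤ C' ^ 2 * (X + Z) := by positivity
  have g2 : 0 ≤ C' ^ 2 * CU * (Y + Z) := by positivity
  have g3 : 0 ≤ C1 * (Y + Z) := by positivity
  have g4 : 0 ≤ C₀ ^ 2 * CU * (X + Y) := by positivity
  have g5 : 0 ≤ CE * V0 * (Y + Z) := by positivity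
  nlinarith [f1, f2, g1, g2, g3, g4, g5]

/-- AXP-1. -/
theorem t_T1P : StmAlg → StmAxF → StmHar → StmU → StmT1P := fun hAlg _ hHar hU =>
  t_T1P' hAlg hHar hU

end Pool.Agent.Q182.AXI.T1P
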